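import Pool.Agent.Lib.MP_4fbe7c_an.WN.Base

/-!
Project WN (MP_4fbe7c_an), module TOP (helper59): the upper bound for the slowest species.
-/

set_option autoImplicit false

open Set MeasureTheory

namespace Pool.Agent.Lib.MP_4fbe7c_an.WN.H59

open Pool.Agent.Lib.MP_4fbe7c_an.UL Pool.Agent.Lib.MP_4fbe7c_an.ND

variable {p : ℕ} {Ω : Set (Eu p)} {q : Eu p → ℝ}

/-- A product of a function of `t` and a function of `x`. -/
theorem evo_mul {f : Eu p → ℝ} {f' : Eu p → Eu p} {H : Eu p → Eu p →L[ℝ] Eu p}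
    (h : C2 Ω f f' H) (hn : Neu Ω q f') {φ φ' : ℝ → ℝ} (hφ : ∀ t, HasDerivAt φ (φ' t) t)
    (hc : Continuous φ') :
    Evo Ω q (fun t x => φ t * f x) (fun t x => φ t • f' x) (fun t x => φ t • H x)
      (fun t x => φ' t * f x) := by
  have hφc : Continuous φ := continuous_iff_continuousAt.mpr fun t => (hφ t).continuousAt
  have h0 : Continuous (fun a : ℝ × Eu p => φ a.1) := hφc.comp continuous_fst
  have h1 : Continuous (fun a : ℝ × Eu p => φ' a.1) := hc.comp continuous_fst
  have h2 : MapsTo (fun a : ℝ × Eu p => a.2) (Ioi 0 ×ˢ closure Ω) (closure Ω) :=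
    fun a ha => ha.2
  have h3 : MapsTo (fun a : ℝ × Eu p => a.2) (Ici 0 ×ˢ closure Ω) (closure Ω) :=
    fun a ha => ha.2
  refine ⟨h0.continuousOn.mul (h.toC1.c0.comp continuous_snd.continuousOn h3),
    h0.continuousOn.smul (h.toC1.c1.comp continuous_snd.continuousOn h2),
    h0.continuousOn.smul (h.c2.comp continuous_snd.continuousOn h2),
    h1.continuousOn.mul (h.toC1.c0.comp continuous_snd.continuousOn h2), ?_, ?_, ?_, ?_⟩
  · intro t _ x hx
    exact HasGradientAt.const_mul' (φ t) (h.toC1.d1 x hx)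
  · intro t _ x hx
    exact (h.d2 x hx).const_smul (φ t)
  · intro t _ x _
    exact (hφ t).mul_const (f x)
  · intro t _
    exact Neu.smul (fun _ => φ t) hn

theorem top_st (hCmp : CmpStatement) (hPre : PreStatement) : TopStatement := by
  intro p Ω q m θ θ' θ'' N d i₀ hΩ hm hd hS
  obtain ⟨c, hc0, hc⟩ := hΩ.exists_pos_le hS.c2.toC1.c0 hS.pos
  obtain ⟨B, hB0, hB⟩ := hΩ.exists_bound hm
  refine ⟨c, hc0, ?_⟩
  intro u v w σ hsol hσ hini t ht x hx
  have hnn : ∀ i, ∀ s, 0 ≤ s → ∀ y ∈ closure Ω, 0 ≤ u i s y := fun i =>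
    (hPre p Ω q m N d u v w hΩ hm hd hsol i).1
  have hφ : ∀ s : ℝ, HasDerivAt (fun s : ℝ => 1 + σ * Real.exp (-(c * s)))
      (-(c * (σ * Real.exp (-(c * s))))) s := by
    intro s
    have h1 : HasDerivAt (fun s : ℝ => -(c * s)) (-(c * 1)) s :=
      ((hasDerivAt_id s).const_mul c).neg
    have h2 := (h1.exp.const_mul σ).const_add 1
    refine h2.congr_deriv ?_
    ring
  have hE := evo_mul (q := q) hS.c2 hS.neu hφ (by fun_prop)
  have hZ := (hsol.evo i₀).lin hE 1 (-1)
  have key := hCmp p Ω q _ _ _ _ (d i₀) B 0 0 t hΩ hZ (hd i₀) hB0.le le_rfl le_rfl ?_ ?_ t ht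
    le_rfl x hx
  · simp only [zero_mul, add_zero, one_mul, neg_mul] at key
    linarith
  · intro s hs _ y hy hpos
    simp only [one_mul, neg_mul] at hpos
    have h1 := hS.eq y hy
    have h2 : u i₀ s y ≤ ∑ j, u j s y :=
      Finset.single_le_sum (f := fun j => u j s y) (fun j _ => hnn j s hs.le y hy)
        (Finset.mem_univ i₀)
    have h3 := hnn i₀ s hs.le y hy
    have h4 : m y ≤ B := (le_abs_self _).trans (hB y hy)
    have h5 := hc y hy
    have h6 : 0 ≤ σ * Real.exp (-(c * s)) := mul_nonneg hσ (Real.exp_pos _).le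
    simp only [tr_add, tr_smul]
    set τ := σ * Real.exp (-(c * s)) with hτ
    set U := ∑ j, u j s y
    set a := u i₀ s y
    set b := θ y
    have hb : 0 < b := hc0.trans_le h5
    have e1 : a * (a - U) ≤ 0 := mul_nonpos_of_nonneg_of_nonpos h3 (by linarith)
    have e2 : 0 ≤ τ * b * ((1 + τ) * b - c) := by
      refine mul_nonneg (mul_nonneg h6 hb.le) ?_
      nlinarith [mul_nonneg h6 hb.le]
    have e3 : 0 ≤ (a - (1 + τ) * b) * (B - m y) := mul_nonneg (by linarith) (by linarith)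
    have e4 : 0 ≤ (a - (1 + τ) * b) * (a + (1 + τ) * b) := by
      refine mul_nonneg (by linarith) ?_
      have := mul_nonneg h6 hb.le
      nlinarith
    nlinarith [e1, e2, e3, e4, h1]
  · intro y hy
    have := hini y hy
    simp only [mul_zero, neg_zero, Real.exp_zero, mul_one, one_mul, neg_mul]
    linarith

end Pool.Agent.Lib.MP_4fbe7c_an.WN.H59
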